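import Pool.Agent.EDX.Stmts3

/-!
# EDX squad, row IVB: the inverse branches
-/

set_option autoImplicit false

namespace Pool.Agent.EDX.H25

open Polynomial Finset Pool.Agent.EDG Pool.Agent.EDX Module

/-- the sign of a boolean -/
def sg (t : Bool) : ℂ := if t then 1 else -1

theorem sg_sq (t : Bool) : sg t ^ 2 = 1 := by
  cases t <;> simp [sg]

theorem sg_inj {t t' : Bool} (hh : sg t = sg t') : t = t' := by
  cases t <;> cases t' <;> simp [sg] at hh ⊢
  · norm_num [neg_eq_iff_add_eq_zero] at hh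
  · exfalso
    have h2 : (2 : ℂ) = 0 := by linear_combination hh
    norm_num at h2

/-- the critical value is not a value of an inverse branch -/
theorem ivb_ne {b : ℂ} (hb : b ∈ PP) {q : ℕ} {z w : ℂ} (hw : w ∈ Metric.ball (4 : ℂ) 1)
    (hz : b + it b z q = w) : z + b ^ 2 ≠ 0 := by
  intro h0
  have h1 : z = it b (-b) 1 := by
    rw [it_succ, it_zero]
    linear_combination h0
  rw [h1, ← it_add] at hz
  have h2 : ‖w‖ ≤ 2 := hz ▸ hb.2 (1 + q)
  have h3 : ‖w - 4‖ < 1 := by
    rw [← dist_eq_norm]; exact Metric.mem_ball.mp hw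
  have h4 : ‖(4 : ℂ)‖ ≤ ‖w‖ + ‖w - 4‖ := by
    have h5 : (4 : ℂ) = w - (w - 4) := by ring
    calc ‖(4 : ℂ)‖ = ‖w - (w - 4)‖ := by rw [← h5]
      _ ≤ ‖w‖ + ‖w - 4‖ := norm_sub_le _ _
  have h6 : ‖(4 : ℂ)‖ = 4 := by norm_num
  rw [h6] at h4
  linarith

/-- **Row IVB.** -/
theorem ivb (hS : SqaStmt) : IvbStmt := by
  intro b hb q
  induction q with
  | zero =>
    refine ⟨fun _ w => w - b, fun _ => (differentiable_id.sub_const b).differentiableOn, ?_, ?_⟩
    · intro l w _
      rw [it_zero]; ring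
    · intro w _ l l' _
      have h1 : (2 : ℕ) ^ 0 = 1 := pow_zero 2
      apply Fin.ext
      have := l.2
      have := l'.2
      omega
  | succ q ih =>
    obtain ⟨φ, hd, hφ, hinj⟩ := ih
    have hne : ∀ l, ∀ w ∈ Metric.ball (4 : ℂ) 1, φ l w + b ^ 2 ≠ 0 := fun l w hw =>
      ivb_ne hb hw (hφ l w hw)
    have hs : ∀ l, ∃ s : ℂ → ℂ, DifferentiableOn ℂ s (Metric.ball (4 : ℂ) 1) ∧
        ∀ z ∈ Metric.ball (4 : ℂ) 1, s z ^ 2 = φ l z + b ^ 2 := fun l =>
      hS 4 1 (fun z => φ l z + b ^ 2) one_pos ((hd l).add_const _) (hne l)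
    choose s hsd hs2 using hs
    have hcard : Fintype.card (Fin (2 ^ (q + 1))) = Fintype.card (Fin (2 ^ q) × Bool) := by
      simp [pow_succ]
    let e : Fin (2 ^ (q + 1)) ≃ Fin (2 ^ q) × Bool := Fintype.equivOfCardEq hcard
    have hF : ∀ i, ∀ w ∈ Metric.ball (4 : ℂ) 1,
        (-b + sg (e i).2 * s (e i).1 w) ^ 2 + 2 * b * (-b + sg (e i).2 * s (e i).1 w) =
          φ (e i).1 w := by
      intro i w hw
      have h1 := hs2 (e i).1 w hw
      have h2 := sg_sq (e i).2
      linear_combination (s (e i).1 w) ^ 2 * h2 + h1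
    refine ⟨fun i w => -b + sg (e i).2 * s (e i).1 w, fun i => ?_, ?_, ?_⟩
    · exact ((hsd (e i).1).const_mul (sg (e i).2)).const_add (-b)
    · intro i w hw
      rw [it_succ', hF i w hw]
      exact hφ _ w hw
    · intro w hw i i' hh
      have hh' : -b + sg (e i).2 * s (e i).1 w = -b + sg (e i').2 * s (e i').1 w := hh
      have h1 : (e i).1 = (e i').1 := by
        apply hinj w hw
        rw [← hF i w hw, ← hF i' w hw, hh']
      have h2 : s (e i).1 w ≠ 0 := by
        intro h0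
        have h3 := hs2 (e i).1 w hw
        rw [h0] at h3
        exact hne _ w hw (by rw [← h3]; ring)
      rw [← h1] at hh'
      have h3 : sg (e i).2 = sg (e i').2 := by
        have h4 : (sg (e i).2 - sg (e i').2) * s (e i).1 w = 0 := by linear_combination hh'
        rcases mul_eq_zero.mp h4 with h5 | h5
        · exact sub_eq_zero.mp h5
        · exact absurd h5 h2
      exact e.injective (Prod.ext h1 (sg_inj h3))

end Pool.Agent.EDX.H25
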